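import Mathlib

namespace Pool.Agent.Results.MP_3933ef_co.NoSplit

open Finset

/-- A directed multigraph with vertex type `V` and arc type `A`
(distinct arcs may have the same ends). -/
structure MDigraph (V A : Type) where
  src : A → V
  tgt : A → V

variable {V A : Type} [Fintype V] [DecidableEq V] [Fintype A] [DecidableEq A]

/-- The arcs leaving `U`. -/
def MDigraph.outArcs (D : MDigraph V A) (U : Finset V) : Finset A :=
  univ.filter (fun a => D.src a ∈ U ∧ D.tgt a ∉ U)

/-- The arcs entering `U`. -/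
def MDigraph.inArcs (D : MDigraph V A) (U : Finset V) : Finset A :=
  univ.filter (fun a => D.src a ∉ U ∧ D.tgt a ∈ U)

lemma MDigraph.mem_outArcs (D : MDigraph V A) (U : Finset V) (a : A) :
    a ∈ D.outArcs U ↔ D.src a ∈ U ∧ D.tgt a ∉ U := by
  simp [MDigraph.outArcs]

lemma MDigraph.mem_inArcs (D : MDigraph V A) (U : Finset V) (a : A) :
    a ∈ D.inArcs U ↔ D.src a ∉ U ∧ D.tgt a ∈ U := by
  simp [MDigraph.inArcs]

/-- The digraph obtained by reversing every arc of `J`. -/
def MDigraph.reverse (D : MDigraph V A) (J : Finset A) : MDigraph V A where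
  src := fun a => if a ∈ J then D.tgt a else D.src a
  tgt := fun a => if a ∈ J then D.src a else D.tgt a

/-- `k`-arc-connected: every nonempty proper vertex set is left by at least `k` arcs. -/
def MDigraph.ArcConnected (D : MDigraph V A) (k : ℕ) : Prop :=
  ∀ U : Finset V, U.Nonempty → U ≠ univ → k ≤ (D.outArcs U).card

/-- The underlying undirected multigraph is `m`-edge-connected. -/
def MDigraph.EdgeConnected (D : MDigraph V A) (m : ℕ) : Prop :=
  ∀ U : Finset V, U.Nonempty → U ≠ univ → m ≤ (D.outArcs U).card + (D.inArcs U).card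

/-- `J` is a `k`-arc-connected flip. -/
def MDigraph.IsFlip (D : MDigraph V A) (k : ℕ) (J : Finset A) : Prop :=
  (D.reverse J).ArcConnected k

/-- `C` is a dicut: the set of arcs leaving a nonempty proper set entered by no arc. -/
def MDigraph.IsDicut (D : MDigraph V A) (C : Finset A) : Prop :=
  ∃ U : Finset V, U.Nonempty ∧ U ≠ univ ∧ D.inArcs U = ∅ ∧ C = D.outArcs U

/-- `J` is an `m`-dijoin: it has at least `m` arcs in every dicut. -/
def MDigraph.IsDijoin (D : MDigraph V A) (m : ℕ) (J : Finset A) : Prop :=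
  ∀ C : Finset A, D.IsDicut C → m ≤ (J ∩ C).card

/-- The example: a directed cycle on `ZMod τ` whose arcs have multiplicity `k - 1`,
and two sources, each joined once to every vertex of the cycle. -/
def ex (k τ : ℕ) : MDigraph (Bool ⊕ ZMod τ) ((Fin (k - 1) × ZMod τ) ⊕ (Bool × ZMod τ)) where
  src := fun a => match a with
    | Sum.inl p => Sum.inr p.2
    | Sum.inr p => Sum.inl p.1
  tgt := fun a => match a with
    | Sum.inl p => Sum.inr (p.2 + 1)
    | Sum.inr p => Sum.inr p.2

lemma cyc {τ : ℕ} [NeZero τ] (S : ZMod τ → Prop) (h : ∀ i, S i → S (i + 1)) {i : ZMod τ}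
    (hi : S i) : ∀ j, S j := by
  have h1 : ∀ n : ℕ, S (i + n) := by
    intro n
    induction n with
    | zero => simpa using hi
    | succ n ih =>
      have := h _ ih
      push_cast
      rwa [← add_assoc]
  intro j
  have h2 := h1 (j - i).val
  rwa [ZMod.natCast_zmod_val, add_sub_cancel] at h2

lemma cyc' {τ : ℕ} [NeZero τ] (S : ZMod τ → Prop) (h : ∀ i, S (i + 1) → S i) {i : ZMod τ}
    (hi : S i) : ∀ j, S j := by
  intro j
  by_contra hj
  exact (cyc (fun i => ¬ S i) (fun i h1 h2 => h1 (h i h2)) hj i) hi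

lemma card_fan {τ : ℕ} [NeZero τ] {k : ℕ} (b : Bool)
    (F : Finset ((Fin (k - 1) × ZMod τ) ⊕ (Bool × ZMod τ)))
    (h : ∀ i, Sum.inr (b, i) ∈ F) : τ ≤ F.card := by
  have h1 : (univ.image (fun i : ZMod τ =>
      (Sum.inr (b, i) : (Fin (k - 1) × ZMod τ) ⊕ (Bool × ZMod τ)))) ⊆ F := by
    intro x hx
    obtain ⟨i, -, rfl⟩ := mem_image.1 hx
    exact h i
  have h2 := card_le_card h1
  rw [card_image_of_injective _ (by intro x y hxy; simpa using hxy)] at h2
  simpa [ZMod.card] using h2

lemma card_par {τ : ℕ} [NeZero τ] {k : ℕ} (i : ZMod τ)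
    (F : Finset ((Fin (k - 1) × ZMod τ) ⊕ (Bool × ZMod τ)))
    (h : ∀ j, Sum.inl (j, i) ∈ F) : k - 1 ≤ (F.filter (fun a => a.isLeft)).card := by
  have h1 : (univ.image (fun j : Fin (k - 1) =>
      (Sum.inl (j, i) : (Fin (k - 1) × ZMod τ) ⊕ (Bool × ZMod τ)))) ⊆
        F.filter (fun a => a.isLeft) := by
    intro x hx
    obtain ⟨j, -, rfl⟩ := mem_image.1 hx
    simpa using h j
  have h2 := card_le_card h1
  rw [card_image_of_injective _ (by intro x y hxy; simpa using hxy)] at h2
  simpa using h2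

lemma ex_edge {k τ : ℕ} [NeZero τ] (hk : 2 ≤ k) (hτ : 2 * k + 1 ≤ τ) :
    (ex k τ).EdgeConnected (2 * k) := by
  intro U hU hU'
  by_cases h0 : ∃ i : ZMod τ, (Sum.inr i : Bool ⊕ ZMod τ) ∈ U
  · by_cases h1 : ∃ i : ZMod τ, (Sum.inr i : Bool ⊕ ZMod τ) ∉ U
    · obtain ⟨i0, hi0⟩ := h0
      obtain ⟨i1, hi1⟩ := h1
      have h2 : ∃ i : ZMod τ, (Sum.inr i : Bool ⊕ ZMod τ) ∈ U ∧
          (Sum.inr (i + 1) : Bool ⊕ ZMod τ) ∉ U := by
        by_contra hcon
        push Not at hcon
        exact hi1 (cyc (fun i => (Sum.inr i : Bool ⊕ ZMod τ) ∈ U) hcon hi0 i1)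
      have h3 : ∃ i : ZMod τ, (Sum.inr i : Bool ⊕ ZMod τ) ∉ U ∧
          (Sum.inr (i + 1) : Bool ⊕ ZMod τ) ∈ U := by
        by_contra hcon
        push Not at hcon
        exact (cyc (fun i => (Sum.inr i : Bool ⊕ ZMod τ) ∉ U) hcon hi1 i0) hi0
      obtain ⟨a, ha, ha'⟩ := h2
      obtain ⟨b, hb, hb'⟩ := h3
      have e1 : k - 1 ≤ (((ex k τ).outArcs U).filter (fun a => a.isLeft)).card := by
        apply card_par a
        intro j
        simp [MDigraph.mem_outArcs, ex, ha, ha']
      have e2 : k - 1 ≤ (((ex k τ).inArcs U).filter (fun a => a.isLeft)).card := by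
        apply card_par b
        intro j
        simp [MDigraph.mem_inArcs, ex, hb, hb']
      have e3 : 2 ≤ (((ex k τ).outArcs U).filter (fun a => ¬ a.isLeft)).card +
          (((ex k τ).inArcs U).filter (fun a => ¬ a.isLeft)).card := by
        rw [← card_union_of_disjoint]
        · have e4 : ∀ c : Bool, ∃ i : ZMod τ,
            (Sum.inr (c, i) : (Fin (k - 1) × ZMod τ) ⊕ (Bool × ZMod τ)) ∈
              ((ex k τ).outArcs U).filter (fun a => ¬ a.isLeft) ∪
              ((ex k τ).inArcs U).filter (fun a => ¬ a.isLeft) := by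
            intro c
            by_cases hc : (Sum.inl c : Bool ⊕ ZMod τ) ∈ U
            · refine ⟨i1, ?_⟩
              simp [MDigraph.mem_outArcs, MDigraph.mem_inArcs, ex, hc, hi1]
            · refine ⟨i0, ?_⟩
              simp [MDigraph.mem_outArcs, MDigraph.mem_inArcs, ex, hc, hi0]
          obtain ⟨x, hx⟩ := e4 true
          obtain ⟨y, hy⟩ := e4 false
          have : 1 < (((ex k τ).outArcs U).filter (fun a => ¬ a.isLeft) ∪
              ((ex k τ).inArcs U).filter (fun a => ¬ a.isLeft)).card :=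
            one_lt_card.2 ⟨_, hx, _, hy, by simp⟩
          exact this
        · rw [disjoint_left]
          intro x hx hy
          simp only [MDigraph.mem_outArcs, MDigraph.mem_inArcs, mem_filter] at hx hy
          exact hy.1.1 hx.1.1
      have e5 := card_filter_add_card_filter_not (s := (ex k τ).outArcs U) (fun a => (a.isLeft : Prop))
      have e6 := card_filter_add_card_filter_not (s := (ex k τ).inArcs U) (fun a => (a.isLeft : Prop))
      omega
    · push Not at h1
      have : ∃ b : Bool, (Sum.inl b : Bool ⊕ ZMod τ) ∉ U := by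
        by_contra hcon
        push Not at hcon
        apply hU'
        ext x
        rcases x with x | x <;> simp [hcon, h1]
      obtain ⟨b, hb⟩ := this
      have := card_fan b ((ex k τ).inArcs U) (by
        intro i
        simp [MDigraph.mem_inArcs, ex, hb, h1])
      omega
  · push Not at h0
    have : ∃ b : Bool, (Sum.inl b : Bool ⊕ ZMod τ) ∈ U := by
      obtain ⟨x, hx⟩ := hU
      rcases x with x | x
      · exact ⟨x, hx⟩
      · exact absurd hx (h0 x)
    obtain ⟨b, hb⟩ := this
    have := card_fan b ((ex k τ).outArcs U) (by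
        intro i
        simp [MDigraph.mem_outArcs, ex, hb, h0])
    omega

lemma ex_dicut {k τ : ℕ} [NeZero τ] (hk : 2 ≤ k) (C : Finset _) (hC : (ex k τ).IsDicut C) :
    τ ≤ C.card := by
  obtain ⟨U, hU, hU', hin, rfl⟩ := hC
  have hk' : 0 < k - 1 := by omega
  have hin' : ∀ a, a ∉ (ex k τ).inArcs U := by
    intro a; rw [hin]; exact notMem_empty a
  by_cases h0 : ∃ i : ZMod τ, (Sum.inr i : Bool ⊕ ZMod τ) ∈ U
  · exfalso
    obtain ⟨i0, hi0⟩ := h0
    have hall := cyc' (fun i => (Sum.inr i : Bool ⊕ ZMod τ) ∈ U) (by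
      intro i hi
      by_contra hcon
      apply hin' (Sum.inl (⟨0, hk'⟩, i))
      simp [MDigraph.mem_inArcs, ex, hi, hcon]) hi0
    have hall2 : ∀ b : Bool, (Sum.inl b : Bool ⊕ ZMod τ) ∈ U := by
      intro b
      by_contra hcon
      apply hin' (Sum.inr (b, i0))
      simp [MDigraph.mem_inArcs, ex, hi0, hcon]
    apply hU'
    ext x
    rcases x with x | x
    · simp [hall2]
    · simp only [mem_univ, iff_true]
      exact hall x
  · push Not at h0
    have : ∃ b : Bool, (Sum.inl b : Bool ⊕ ZMod τ) ∈ U := by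
      obtain ⟨x, hx⟩ := hU
      rcases x with x | x
      · exact ⟨x, hx⟩
      · exact absurd hx (h0 x)
    obtain ⟨b, hb⟩ := this
    exact card_fan b ((ex k τ).outArcs U) (by
        intro i
        simp [MDigraph.mem_outArcs, ex, hb, h0])

lemma ex_source {k τ : ℕ} [NeZero τ] (b : Bool) :
    (ex k τ).IsDicut (univ.image (fun i : ZMod τ =>
      (Sum.inr (b, i) : (Fin (k - 1) × ZMod τ) ⊕ (Bool × ZMod τ)))) := by
  refine ⟨{Sum.inl b}, singleton_nonempty _, ?_, ?_, ?_⟩
  · intro h
    have : (Sum.inr 0 : Bool ⊕ ZMod τ) ∈ ({Sum.inl b} : Finset (Bool ⊕ ZMod τ)) := by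
      rw [h]; exact mem_univ _
    simp at this
  · ext a
    rcases a with ⟨j, i⟩ | ⟨c, i⟩ <;> simp [MDigraph.mem_inArcs, ex]
  · ext a
    rcases a with ⟨j, i⟩ | ⟨c, i⟩ <;> simp [MDigraph.mem_outArcs, ex, eq_comm]

lemma ex_no {k τ : ℕ} [NeZero τ] (hk : 2 ≤ k) (hτ : 2 * k + 1 ≤ τ)
    (J : Finset ((Fin (k - 1) × ZMod τ) ⊕ (Bool × ZMod τ)))
    (h1 : (ex k τ).IsFlip k J) (h2 : (ex k τ).IsDijoin (τ - k) Jᶜ) : False := by
  set S : Bool → Finset ((Fin (k - 1) × ZMod τ) ⊕ (Bool × ZMod τ)) := fun b =>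
    univ.image (fun i : ZMod τ =>
      (Sum.inr (b, i) : (Fin (k - 1) × ZMod τ) ⊕ (Bool × ZMod τ))) with hS
  have hScard : ∀ b, (S b).card = τ := by
    intro b
    rw [hS]
    simp only
    rw [card_image_of_injective _ (by intro x y hxy; simpa using hxy)]
    simp [ZMod.card]
  -- few reversed arcs at each source
  have h3 : ∀ b, (J ∩ S b).card ≤ k := by
    intro b
    have h4 := h2 _ (ex_source b)
    have h5 : (J ∩ S b).card + (Jᶜ ∩ S b).card = τ := by
      rw [← card_union_of_disjoint]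
      · rw [← union_inter_distrib_right, union_compl, univ_inter]
        exact hScard b
      · rw [disjoint_left]
        intro x hx hy
        simp only [mem_inter, mem_compl] at hx hy
        exact hy.1 hx.1
    have h6 : (Jᶜ ∩ S b).card ≥ τ - k := h4
    omega
  -- out-degrees of the cycle vertices after reversal
  have h4 : ∀ i : ZMod τ, k ≤ (((ex k τ).reverse J).outArcs {Sum.inr i}).card := by
    intro i
    apply h1
    · exact singleton_nonempty _
    · intro h
      have : (Sum.inl true : Bool ⊕ ZMod τ) ∈ ({Sum.inr i} : Finset (Bool ⊕ ZMod τ)) := by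
        rw [h]; exact mem_univ _
      simp at this
  have h5 : k * τ ≤ ∑ i : ZMod τ, (((ex k τ).reverse J).outArcs {Sum.inr i}).card := by
    calc k * τ = ∑ i : ZMod τ, k := by simp [ZMod.card, mul_comm]
      _ ≤ _ := sum_le_sum (fun i _ => h4 i)
  have h6 : ∑ i : ZMod τ, (((ex k τ).reverse J).outArcs {Sum.inr i}).card =
      ((univ : Finset (ZMod τ)).biUnion
        (fun i => ((ex k τ).reverse J).outArcs {Sum.inr i})).card := by
    rw [card_biUnion]
    intro i _ j _ hij
    change Disjoint _ _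
    rw [disjoint_left]
    intro x hx hy
    simp only [MDigraph.mem_outArcs, mem_singleton] at hx hy
    have := hx.1.symm.trans hy.1
    exact hij (Sum.inr_injective this)
  have h7 : ((univ : Finset (ZMod τ)).biUnion
        (fun i => ((ex k τ).reverse J).outArcs {Sum.inr i})) ⊆
      (univ.image (Sum.inl : (Fin (k - 1) × ZMod τ) → _)) ∪ ((J ∩ S true) ∪ (J ∩ S false)) := by
    intro x hx
    rw [mem_biUnion] at hx
    obtain ⟨i, -, hi⟩ := hx
    rcases x with ⟨j, l⟩ | ⟨c, l⟩
    · simp
    · simp only [MDigraph.mem_outArcs, mem_singleton, MDigraph.reverse, ex] at hi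
      have hJ : Sum.inr (c, l) ∈ J := by
        by_contra hcon
        simp [hcon] at hi
      rcases c with _ | _ <;> simp [hS, hJ]
  have h8 := card_le_card h7
  have h9 := card_union_le (univ.image (Sum.inl : (Fin (k - 1) × ZMod τ) →
    (Fin (k - 1) × ZMod τ) ⊕ (Bool × ZMod τ))) ((J ∩ S true) ∪ (J ∩ S false))
  have h10 := card_union_le (J ∩ S true) (J ∩ S false)
  have h11 : (univ.image (Sum.inl : (Fin (k - 1) × ZMod τ) →
    (Fin (k - 1) × ZMod τ) ⊕ (Bool × ZMod τ))).card = (k - 1) * τ := by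
    rw [card_image_of_injective _ Sum.inl_injective]
    simp [ZMod.card]
  have h12 := h3 true
  have h13 := h3 false
  have h14 : k * τ = (k - 1) * τ + τ := by
    obtain ⟨m, rfl⟩ : ∃ m, k = m + 1 := ⟨k - 1, by omega⟩
    simp [Nat.succ_mul]
  omega

theorem result : ∀ k τ : ℕ, 2 ≤ k → 2 * k + 1 ≤ τ →
    ∃ (V A : Type) (_ : Fintype V) (_ : DecidableEq V) (_ : Fintype A) (_ : DecidableEq A)
      (D : MDigraph V A),
      D.EdgeConnected (2 * k) ∧
      (∀ C : Finset A, D.IsDicut C → τ ≤ C.card) ∧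
      ¬ ∃ J J' : Finset A, J ∪ J' = univ ∧ Disjoint J J' ∧
        D.IsFlip k J ∧ D.IsDijoin (τ - k) J' := by
  intro k τ hk hτ
  have : NeZero τ := ⟨by omega⟩
  refine ⟨_, _, inferInstance, inferInstance, inferInstance, inferInstance, ex k τ,
    ex_edge hk hτ, ex_dicut hk, ?_⟩
  rintro ⟨J, J', hu, hd, h1, h2⟩
  have hJ : J' = Jᶜ := by
    ext x
    have hx : x ∈ J ∪ J' := by rw [hu]; exact mem_univ x
    rw [mem_union] at hx
    rw [mem_compl]
    constructor
    · intro h h'
      exact (disjoint_left.1 hd) h' h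
    · intro h
      exact hx.resolve_left h
  subst hJ
  exact ex_no hk hτ J h1 h2

end Pool.Agent.Results.MP_3933ef_co.NoSplit
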